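import Pool.Agent.Work.MP_43901b_nt.Fin

/-!
# Consecutive entries of zeta-like multizeta tuples over `F_q[t]`: the full answer to Q1

`F` is a finite field with `q = Fintype.card F` elements.  `K = F(t)` is `RatFunc F`,
`K_∞ = F((1/t))` is its completion at infinity `RatFunc.CompletionAtInfty F`, `mzv F s` is the multizeta
value `ζ(s_1, ..., s_r)`, the sum of `1/(a_1^{s_1} ... a_r^{s_r})` over all monic `a_i` with
`deg a_1 > ... > deg a_r`, and `ZetaLike F s` says that the depth is at least 2 and that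
`ζ(s_1, ..., s_r)/ζ(s_1 + ... + s_r)` lies in `K` (file `Pool/Agent/Work/MP_43901b_nt/ZDefs.lean`).
-/

namespace Pool.Agent.Results.MP_43901b_nt.AllFields

open Pool.Agent.ZQ

open scoped Valued in
private theorem mzv_single_ne {p : ℕ} (F : Type*) [Field F] [Fintype F] [CharP F p]
    (hQ : IsQ p (Fintype.card F)) {w : ℕ} (hw : 1 ≤ w) : mzv F [w] ≠ 0 := by
  rw [mzv_eq F hQ rfl (s := [w]) (by simpa using hw)]
  intro h0
  have h1 := (theSetup F hQ).norm_zeta_single hw
  rw [h0, norm_zero] at h1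
  exact zero_ne_one h1

open scoped Valued in
private theorem summable_aux {p : ℕ} (F : Type*) [Field F] [Fintype F] [CharP F p]
    (hQ : IsQ p (Fintype.card F)) {s : List ℕ} (hs : ∀ a ∈ s, 1 ≤ a) :
    Summable fun a : Idx F s.length => ∏ i, ((toKinf (a.1 i))⁻¹) ^ s.get i :=
  summable_mzv F hQ rfl hs

/-- (1) **Q1, affirmative, every prime power `q` and every depth**: if `s = (s_1, ..., s_r)` is
zeta-like over `F_q[t]` then `s_i ≤ s_{i+1}` and `(q-1) s_i ≤ s_{i+1} ≤ (q^2-1) s_i` for all `i`.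
(2) The series defining the multizeta values converge.
(3) `ζ(w) ≠ 0`. -/
theorem result (F : Type*) [Field F] [Fintype F] :
    (∀ s : List ℕ, (∀ a ∈ s, 1 ≤ a) → ZetaLike F s →
      ∀ (i : ℕ) (hi : i + 1 < s.length),
        s[i] ≤ s[i + 1] ∧ (Fintype.card F - 1) * s[i] ≤ s[i + 1] ∧
          s[i + 1] ≤ (Fintype.card F ^ 2 - 1) * s[i]) ∧
    (∀ s : List ℕ, (∀ a ∈ s, 1 ≤ a) →
      Summable fun a : Idx F s.length => ∏ i, ((toKinf (a.1 i))⁻¹) ^ s.get i) ∧
    (∀ w : ℕ, 1 ≤ w → mzv F [w] ≠ 0) := by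
  obtain ⟨p, hp⟩ := CharP.exists F
  obtain ⟨e, hpr, hcard⟩ := FiniteField.card F p
  have hQ : IsQ p (Fintype.card F) := ⟨hpr, e, e.pos, hcard⟩
  refine ⟨fun s hs h i hi => ?_, fun s hs => ?_, fun w hw => ?_⟩
  · exact List.isChain_iff_getElem.mp (like_chain F hs h) i hi
  · exact summable_aux F hQ hs
  · exact mzv_single_ne F hQ hw

end Pool.Agent.Results.MP_43901b_nt.AllFields
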